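import Pool.Agent.VX.Main
import Pool.Agent.VX.Fin
import Pool.Agent.VY.Main

/-!
Verbal width in regular branch automaton groups (with time-varying automata).

For a family of homomorphisms (wreath recursions) `ψ s : F →* Wr F X`, `s : S`, and a sequence `ω` of symbols,
`G_ω = F ⧸ NN ψ ω` is the group through which `F` acts on the words over `X` along `ω`; if `S` is a point
these are the self-similar groups.
-/

namespace Pool.Agent.Results.MP_bcef47_al.AutomatonGroups

open Pool.Agent.VW Pool.Agent.VX

/-- Let `F` be a finitely generated group with finitely many wreath recursions `ψ s : F → F ≀ Sym(X)` over a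
finite alphabet `X`, regular branch over a normal subgroup `K` of finite index (`hbr`: every family of elements
of `K` is the family of sections of an element of `K` fixing `X` pointwise) and transitive on every level along
every sequence of symbols. Assume that the recursions are contracting, or that `F` is generated by the states
of a finite automaton such that the trivial state is reachable from every state; or else that `[K, K]` has
finite index and `F` is generated by a finite automaton and is amenable (for instance of subexponential growth)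
or a torsion group. Then for every sequence `ω` of symbols every verbal subgroup of `G_ω`, and of every group `E`
containing `G_ω` as a subgroup of finite index, has finite width. If `[K, K]` has finite index, then more
generally every symmetric conjugation-invariant subset of `E` has finite width. -/
theorem result {F X S : Type} [Group F] [Group.FG F] [Finite X] [Nonempty X] [Finite S]
    (ψ : S → F →* Wr F X) (K : Subgroup F) [K.Normal] [K.FiniteIndex]
    (hbr : ∀ s, ∀ κ : X → F, (∀ x, κ x ∈ K) → ∃ f ∈ K, (ψ s f).perm = 1 ∧ ∀ x, (ψ s f).sec x = κ x)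
    (htr : ∀ (ω : ℕ → S) (n : ℕ) (v w : Wd X n), ∃ f, (iter ψ n ω f).perm v = w)
    (hcase : (Contracting ψ ∨ ∃ T, Automaton ψ T ∧ ReachesOne ψ T) ∨
      ((⁅K, K⁆).FiniteIndex ∧ ∃ T, Automaton ψ T ∧
        (Folner F ∨ Subexponential F ∨ Monoid.IsTorsion F)))
    (ω : ℕ → S) (E : Type) [Group E] (H : Subgroup E) [H.FiniteIndex]
    (hH : Nonempty (H ≃* F ⧸ NN ψ ω)) :
    VerballyElliptic E ∧ ((⁅K, K⁆).FiniteIndex → FiniteWidths E) := by
  obtain ⟨e⟩ := hH
  have key : (⁅K, K⁆).FiniteIndex → (Contracting ψ ∨ ∃ T, Automaton ψ T ∧
      (ReachesOne ψ T ∨ Folner F ∨ Subexponential F ∨ Monoid.IsTorsion F)) → FiniteWidths E := by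
    intro hfin hcase'
    obtain ⟨B, hB⟩ := main_bound ψ K hfin hbr htr hcase'
    have h0 : FiniteWidths (F ⧸ NN ψ ω) := finiteWidths_quot ψ K hfin hbr htr hB ω
    have h1 : FiniteWidths H := h0.of_equiv e.symm
    exact FiniteWidths.of_finiteIndex H h1
  rcases hcase with hc | ⟨hfin, T, hT, hc⟩
  · refine ⟨Pool.Agent.VY.verbal_main ψ K hbr htr hc ω H e, fun hfin => key hfin ?_⟩
    rcases hc with hc | ⟨T, hT, hR⟩
    · exact Or.inl hc
    · exact Or.inr ⟨T, hT, Or.inl hR⟩
  · have h2 := key hfin (Or.inr ⟨T, hT, Or.inr hc⟩)
    exact ⟨h2.verballyElliptic, fun _ => h2⟩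

end Pool.Agent.Results.MP_bcef47_al.AutomatonGroups
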