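import Pool.Agent.VW.Grig3
import Pool.Agent.VW.Over

/-!
Verbal width in Grigorchuk's groups `G_ω`.

`Grigorchuk ω` is Grigorchuk's group `G_ω`, a group of permutations of the set of finite binary
words (vertices of the binary tree), generated by `a = aPerm` (which changes the first letter) and
by the three directed involutions `dPerm s ω`, `s = 0, 1, 2`: `dPerm s ω` sends `0w` to `0w` if
`ω 0 = s` and to `0a(w)` otherwise, and `1w` to `1 v` with `v` the image of `w` under
`dPerm s (shift of ω)`. The sequence `ω` over a three-letter alphabet is only assumed not to be
eventually constant; these are exactly the groups `G_ω` of intermediate growth (Grigorchuk 1984).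
-/

namespace Pool.Agent.Results.MP_bcef47_al.GrigorchukGroups

open Pool.Agent.VW

/-- Let `ω` be a sequence over a three-letter alphabet that is not eventually constant and let `G`
be a group with a subgroup of finite index isomorphic to Grigorchuk's group `G_ω`
(for instance `G = G_ω`). Then every verbal subgroup of `G` (for every set of words) has finite
width; more generally, for every symmetric conjugation-invariant subset `W` of `G` there is `m` such
that every element of the subgroup generated by `W` is a product of at most `m` elements of `W`. -/
theorem result (ω : ℕ → Fin 3) (hω : ¬ ∃ s n₀, ∀ n, n₀ ≤ n → ω n = s)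
    (G : Type) [Group G] (H : Subgroup G) [H.FiniteIndex] (hH : Nonempty (H ≃* Grigorchuk ω)) :
    VerballyElliptic G ∧ FiniteWidths G := by
  obtain ⟨e⟩ := hH
  have h1 : FiniteWidths H := (grigorchuk_finiteWidths ω hω).of_equiv e.symm
  have h2 : FiniteWidths G := FiniteWidths.of_finiteIndex H h1
  exact ⟨h2.verballyElliptic, h2⟩

end Pool.Agent.Results.MP_bcef47_al.GrigorchukGroups
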