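import Pool.Agent.NekF.Final

/-!
Verbal width in Nekrashevych's simple groups of intermediate growth (alternating full groups of
fragmentations of minimal dihedral actions on totally disconnected compact spaces).

`Fragmentation H a`: `H` is a group of homeomorphisms each of which maps every point `x` to `x` or
to `a x`, and for every `x` some element of `H` maps `x` to `a x`.
`Minimal a b`: the only nonempty closed subset mapped into itself by `a` and by `b` is the space.
`full G`: the homeomorphisms which coincide near every point with an element of `G` (the full group).
`alt G`: the group generated by the 3-cycles of `full G`, i.e. by the `t ∈ full G` with `t ^ 3 = 1` for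
which there is a clopen set `U` with `U`, `t U`, `t ^ 2 U` pairwise disjoint and `t x = x` outside of
their union (the alternating full group `A(G, X)`).
-/

namespace Pool.Agent.Results.MP_bcef47_al.SimpleGroups

open Pool.Agent.NekF Pool.Agent.VW

/-- Let `a`, `b` be involutive homeomorphisms, generating a group which acts minimally, of an infinite
compact Hausdorff totally disconnected space `X`, let `A`, `B` be fragmentations of `a`, `b`, and let
`G` be the group generated by `A` and `B`. Then every verbal subgroup of every group `H` of
homeomorphisms of `X` containing the alternating full group `alt G` as a subgroup of finite index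
(for example `H = alt G`) has finite width, for every set of words; more generally every symmetric
conjugation-invariant subset of `H` has finite width. -/
theorem result (X : Type) [TopologicalSpace X] [CompactSpace X] [T2Space X]
    [TotallyDisconnectedSpace X] [Infinite X] (a b : X ≃ₜ X) (A B : Subgroup (X ≃ₜ X))
    (ha : a * a = 1) (hb : b * b = 1) (hmin : Minimal a b)
    (hA : Fragmentation A a) (hB : Fragmentation B b)
    (H : Subgroup (X ≃ₜ X)) (hH : alt (A ⊔ B) ≤ H) (hidx : (alt (A ⊔ B)).relIndex H ≠ 0) :
    VerballyElliptic H ∧ FiniteWidths H :=
  (main X a b A B ha hb hmin hA hB).2 H hH hidx

end Pool.Agent.Results.MP_bcef47_al.SimpleGroups
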