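import Pool.Agent.VW.Rays2

/-!
Verbal width in permutational wreath products over Grigorchuk's groups `G_ω`.

`GrigorchukRays ω` is Grigorchuk's group `G_ω` acting on the boundary of the binary tree, the set of
infinite binary words `ξ : ℕ → Bool`: it is generated by `a` (`aRay`, which changes the first letter)
and the three directed involutions `dRay s ω`, `s = 0, 1, 2`, which send `0η` to `0η` if `ω 0 = s`
and to `0a(η)` otherwise, and `1η` to `1ζ` with `ζ` the image of `η` under `dRay s (shift of ω)`.

`OrbitRay ω ξ` is the orbit of `ξ` under `G_ω`, and `WreathProd A X G` is the restricted permutational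
wreath product `A ≀_X G`: the semidirect product of the group `FinFun A X` of all finitely supported
functions `X → A` with `G`, which acts by permuting the arguments.
-/

namespace Pool.Agent.Results.MP_bcef47_al.WreathProducts

open Pool.Agent.VW

/-- Let `ω` be a sequence over a three-letter alphabet that is not eventually constant, let `ξ` be an
infinite binary word and `X` its orbit under Grigorchuk's group `G_ω`, and let `A` be ANY finitely
generated group. Then every verbal subgroup of the permutational wreath product `A ≀_X G_ω` has
finite width (for every set of words). -/
theorem result (ω : ℕ → Fin 3) (hω : ¬ ∃ s n₀, ∀ n, n₀ ≤ n → ω n = s) (ξ : ℕ → Bool)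
    (A : Type) [Group A] [Group.FG A] :
    VerballyElliptic (WreathProd A (OrbitRay ω ξ) (GrigorchukRays ω)) :=
  wreath_rays ω (not_eventually_const ω hω) ξ A

end Pool.Agent.Results.MP_bcef47_al.WreathProducts
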